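import Pool.Agent.H15.Cut

set_option autoImplicit false

namespace Pool.Agent.Results.MP_4b7267_pr.NoCutoff

open Finset Filter Topology Matrix

noncomputable section

variable {V : Type} [Fintype V] [DecidableEq V] (G : SimpleGraph V) [DecidableRel G.Adj]

/-- Transition matrix of the lazy simple random walk on `G`. -/
def P : Matrix V V ℝ := fun x y =>
  (if x = y then 1 / 2 else 0) + (if G.Adj x y then 1 / (2 * (G.degree x : ℝ)) else 0)

/-- Worst-case total variation distance to the uniform distribution at time `t`. -/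
def d (t : ℕ) : ℝ := ⨆ x : V, (1 / 2) * ∑ y, |(P G ^ t) x y - 1 / (Fintype.card V : ℝ)|

def Tmix (ε : ℝ) : ℕ := sInf {t | d G t ≤ ε}

/-- The largest eigenvalue of `P` other than the (simple) eigenvalue `1`. -/
def lam2 : ℝ := sSup {l : ℝ | l ≠ 1 ∧ ∃ f : V → ℝ, f ≠ 0 ∧ P G *ᵥ f = l • f}

def Trel : ℝ := 1 / (1 - lam2 G)

/-- Connected vertex-transitive graphs whose lazy simple random walks satisfy the product
condition but have no total variation cutoff. -/
theorem result : ∃ (V : ℕ → Type) (_ : ∀ n, Fintype (V n)) (_ : ∀ n, DecidableEq (V n))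
    (G : ∀ n, SimpleGraph (V n)) (_ : ∀ n, DecidableRel (G n).Adj),
    (∀ n, (G n).Connected ∧ ∀ x y, ∃ φ : G n ≃g G n, φ x = y) ∧
    Tendsto (fun n => Fintype.card (V n)) atTop atTop ∧
    Tendsto (fun n => (Tmix (G n) (1 / 4) : ℝ) / Trel (G n)) atTop atTop ∧
    ¬ ∀ ε : ℝ, 0 < ε → ε < 1 →
      Tendsto (fun n => (Tmix (G n) ε : ℝ) / Tmix (G n) (1 - ε)) atTop (𝓝 1) := by
  obtain ⟨V, _, _, _, S, h1, h2, h3, h4⟩ := MP_8d2225_pr.NoCutoff.result
  have e : ∀ n, P (H15.Cut.cay (h1 n).1 (h1 n).2.1) = MP_8d2225_pr.NoCutoff.P (S n) := fun n => by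
    ext x y
    rw [P, H15.Cut.cay_deg]
    rfl
  refine ⟨V, inferInstance, inferInstance, fun n => H15.Cut.cay (h1 n).1 (h1 n).2.1, inferInstance,
    fun n => ⟨H15.Cut.cay_conn _ _ (h1 n).2.2, H15.Cut.cay_trans _ _⟩, h2, ?_,
    fun h => h4 fun ε a b => ?_⟩
  · simp only [Tmix, d, Trel, lam2, e]
    exact h3
  · have := h ε a (by linarith)
    simp only [Tmix, d, e] at this
    exact this

end

end Pool.Agent.Results.MP_4b7267_pr.NoCutoff
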